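import Pool.Agent.H66.FA.T

/-!
# The determinant is constant
-/

set_option autoImplicit false

open Matrix Filter Topology

namespace Pool.Agent.H43.FA

open Pool.Agent.H63.Fins Pool.Agent.H66.FA

/-- the determinant is constant -/
theorem pf_ALL (h1 : T_EUL) (h2 : T_REG) (h3 : T_CON) (h4 : T_RFL) : T_ALL := by
  have _ := h1
  intro m B E L hm hL hE hA hS
  obtain ⟨dp, hdp⟩ := h3 m B E L hL hE hA hS
  obtain ⟨r1, r2, r3, r4⟩ := h4 m B E L hL hE
  obtain ⟨dm, hdm⟩ := h3 m B E (fun y => L (rf y)) r1 hE (r2 hA) (r3 hS)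
  have hrr : ∀ y : V (m + 1), rf (rf y) = y := by
    intro y
    funext i
    unfold rf
    by_cases hi : i = 0 <;> simp [hi]
  have hneg : ∀ y : V (m + 1), y 0 < 0 → DD L y = dm := by
    intro y hy
    have h0 : 0 < rf y 0 := by
      unfold rf
      simp
      exact hy
    have hne : rf y ≠ 0 := by
      intro h
      rw [h] at h0
      simp at h0
    have h5 := hdm (rf y) h0
    rw [r4 (rf y) hne, hrr] at h5
    exact h5
  have hcont : ContinuousOn (DD L) {y | y ≠ 0} := by
    obtain ⟨_, _, _, _, h, _⟩ := h2 (m + 1) L hL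
    exact h.continuousOn
  have hlim : ∀ y : V (m + 1), y ≠ 0 → y 0 = 0 → DD L y = dp ∧ DD L y = dm := by
    intro y hy hy0
    have hca : ContinuousAt (DD L) y := hcont.continuousAt (isOpen_ne.mem_nhds hy)
    have hline : Tendsto (fun t : ℝ => y + t • (ee 0 : V (m + 1))) (𝓝 0) (𝓝 y) := by
      have hc : Continuous (fun t : ℝ => y + t • (ee 0 : V (m + 1))) := by fun_prop
      have := hc.tendsto 0
      simpa using this
    have hcomp : Tendsto (fun t : ℝ => DD L (y + t • (ee 0 : V (m + 1)))) (𝓝 0) (𝓝 (DD L y)) :=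
      hca.tendsto.comp hline
    have hval : ∀ t : ℝ, (y + t • (ee 0 : V (m + 1))) 0 = t := by
      intro t
      simp [ee, hy0]
    constructor
    · have h6 : Tendsto (fun t : ℝ => DD L (y + t • (ee 0 : V (m + 1)))) (𝓝[>] 0) (𝓝 (DD L y)) :=
        hcomp.mono_left nhdsWithin_le_nhds
      have h7 : Tendsto (fun t : ℝ => DD L (y + t • (ee 0 : V (m + 1)))) (𝓝[>] 0) (𝓝 dp) := by
        refine tendsto_const_nhds.congr' ?_
        filter_upwards [self_mem_nhdsWithin] with t ht
        exact (hdp _ (by rw [hval]; exact ht)).symm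
      exact tendsto_nhds_unique h6 h7
    · have h6 : Tendsto (fun t : ℝ => DD L (y + t • (ee 0 : V (m + 1)))) (𝓝[<] 0) (𝓝 (DD L y)) :=
        hcomp.mono_left nhdsWithin_le_nhds
      have h7 : Tendsto (fun t : ℝ => DD L (y + t • (ee 0 : V (m + 1)))) (𝓝[<] 0) (𝓝 dm) := by
        refine tendsto_const_nhds.congr' ?_
        filter_upwards [self_mem_nhdsWithin] with t ht
        exact (hneg _ (by rw [hval]; exact ht)).symm
      exact tendsto_nhds_unique h6 h7
  have hpm : dp = dm := by
    have hlast : (Fin.last m) ≠ 0 := by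
      intro h
      have := congrArg Fin.val h
      simp at this
      omega
    have hne : (ee (Fin.last m) : V (m + 1)) ≠ 0 := by
      intro h
      have := congrFun h (Fin.last m)
      simp [ee] at this
    have h0 : (ee (Fin.last m) : V (m + 1)) 0 = 0 := by
      simp [ee, hlast.symm]
    obtain ⟨ha, hb⟩ := hlim _ hne h0
    rw [← ha, ← hb]
  refine ⟨dp, fun y hy => ?_⟩
  rcases lt_trichotomy (y 0) 0 with h | h | h
  · rw [hneg y h, hpm]
  · exact (hlim y hy h).1
  · exact hdp y h

end Pool.Agent.H43.FA
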