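import Pool.Agent.H66.FA.T

/-!
# Partial derivatives
-/

set_option autoImplicit false

open Matrix Filter Topology

namespace Pool.Agent.H43.FA

open Pool.Agent.H63.Fins Pool.Agent.H66.FA

/-- partial derivatives and the Frechet derivative -/
theorem deriv_update_eq {n : ℕ} (i : Fin n) (f : V n → ℝ) (x : V n)
    (h : DifferentiableAt ℝ f x) :
    deriv (fun t => f (Function.update x i t)) (x i) = fderiv ℝ f x (ee i) := by
  have h1 : HasDerivAt (Function.update x i) (Pi.single i (1 : ℝ)) (x i) :=
    hasDerivAt_update x i (x i)
  have h2 : HasFDerivAt f (fderiv ℝ f x) (Function.update x i (x i)) := by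
    rw [Function.update_eq_self]
    exact h.hasFDerivAt
  exact (h2.comp_hasDerivAt (x i) h1).deriv

/-- partial derivatives -/
theorem pf_PDF : T_PDF := by
  intro n i H x y
  exact ⟨fun h => deriv_update_eq i (fun x => H x y) x h,
    fun h => deriv_update_eq i (fun y => H x y) y h⟩

end Pool.Agent.H43.FA
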