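import Pool.Agent.H66.FA.T

/-!
# The sign of the second derivative
-/

set_option autoImplicit false

open Matrix Filter Topology

namespace Pool.Agent.H43.FA

open Pool.Agent.H63.Fins Pool.Agent.H66.FA

/-- the sign of the second derivative -/
theorem pf_RIC (h1 : T_RB) (h2 : T_RC) (h3 : T_RD) (h4 : T_RCS) : T_RIC := by
  intro m F Λ hR v hv hv0 hd hric
  have hb := h1 m F Λ hR v hv hv0 hd
  have hc := h2 m F Λ hR v hv hv0 hd
  have hr := h3 m F Λ hR v hv hv0 hd
  obtain ⟨hG, hS⟩ := h4 m (fund F 0 v)⁻¹ (ta Λ v) (hR.pos 0 v hv).inv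
  have hs : ∑ j, ∑ k, pdy j (fun x y => spray F x y k) 0 v *
      pdy k (fun x y => spray F x y j) 0 v ≤ 0 := by
    refine le_trans (le_of_eq ?_) hS
    refine Finset.sum_congr rfl fun j _ => Finset.sum_congr rfl fun k _ => ?_
    rw [hc j k, hc k j]
  rw [hr, hb] at hric
  have h5 : 0 < (fund F 0 v)⁻¹ 0 0 * deriv (deriv fun s => Λ s v) 0 := by linarith
  exact (pos_iff_pos_of_mul_pos h5).mp hG

end Pool.Agent.H43.FA
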